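import Pool.Agent.MP_c69980_ag.H43.Spec4

/-!
Local estimates: approximate vanishing to high order, and zeros near a small circle.
-/

set_option autoImplicit false

namespace Pool.Agent.MP_c69980_ag.H43

open H60 Finset Filter Topology Metric Real

lemma locCauchy {f : ℂ → ℂ} {ζ z : ℂ} {η s C : ℝ} (hf : DifferentiableOn ℂ f (ball ζ η))
    (hs : 0 < s) (h : ‖z - ζ‖ + s < η) (hC : ∀ w, ‖w - ζ‖ ≤ ‖z - ζ‖ + s → ‖f w‖ ≤ C) (j : ℕ) :
    ‖iteratedDeriv j f z‖ ≤ j.factorial * C / s ^ j := by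
  have hb : ∀ w ∈ closedBall z s, ‖w - ζ‖ ≤ ‖z - ζ‖ + s := fun w hw => by
    linarith [norm_sub_le_norm_sub_add_norm_sub w z ζ, mem_closedBall_iff_norm.1 hw]
  refine Complex.norm_iteratedDeriv_le_of_forall_mem_sphere_norm_le j hs
    (DifferentiableOn.diffContOnCl (hf.mono ?_)) fun w hw =>
      hC w (hb w (sphere_subset_closedBall hw))
  rw [closure_ball _ hs.ne']
  exact fun w hw => mem_ball_iff_norm.2 ((hb w hw).trans_lt h)

lemma locTaylor {Φ : ℂ → ℂ} {ζ z : ℂ} {η ρ E K : ℝ} {l : ℕ} (hf : DifferentiableOn ℂ Φ (ball ζ η))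
    (h0 : 0 < ρ) (h1 : 4 * ρ ≤ η) (h2 : η ≤ 1) (hE : ∀ w ∈ ball ζ η, ‖Φ w‖ ≤ E)
    (hK : E * (4 / η) ^ l ≤ K) (hd : ∀ j < l, ‖iteratedDeriv j Φ ζ‖ ≤ K * ρ ^ l)
    (hz : ‖z - ζ‖ ≤ ρ) : ‖Φ z‖ ≤ K * ρ ^ l * 2 := by
  have hη : 0 < η := by linarith
  have E0 : 0 ≤ E := (norm_nonneg _).trans (hE ζ (mem_ball_self hη))
  refine (Complex.hasSum_taylorSeries_on_ball hf
    (mem_ball_iff_norm.2 (by linarith))).norm_le_of_bounded
    (hasSum_geometric_two.mul_left (K * ρ ^ l)) fun n => ?_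
  have f1 : (1 : ℝ) ≤ n.factorial := by exact_mod_cast n.factorial_pos
  rw [norm_smul, norm_smul, norm_inv, norm_pow, Complex.norm_natCast]
  rcases lt_or_ge n l with h | h
  · have a1 : ‖z - ζ‖ ^ n ≤ (1 / 2) ^ n := pow_le_pow_left₀ (norm_nonneg _) (by linarith) n
    calc _ ≤ 1 * ((1 / 2) ^ n * (K * ρ ^ l)) := by
          gcongr
          · exact inv_le_one_of_one_le₀ f1
          · exact hd n h
      _ = _ := by ring
  · have a1 := locCauchy hf (z := ζ) (s := η / 2) (C := E) (by linarith) (by simpa using hη)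
      (fun w hw => hE w (mem_ball_iff_norm.2 (by simp at hw; linarith))) n
    have a2 : (4 * ρ / η) ^ n ≤ (4 * ρ / η) ^ l :=
      pow_le_pow_of_le_one (by positivity) ((div_le_one hη).2 h1) h
    calc _ ≤ (n.factorial : ℝ)⁻¹ * (ρ ^ n * (n.factorial * E / (η / 2) ^ n)) := by gcongr
      _ = E * (4 * ρ / η) ^ n * (1 / 2) ^ n := by
          rw [mul_assoc E, ← mul_pow, show 4 * ρ / η * (1 / 2) = ρ / (η / 2) by field_simp; ring,
            div_pow ρ]
          field_simp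
      _ ≤ E * (4 * ρ / η) ^ l * (1 / 2) ^ n := by gcongr
      _ = E * (4 / η) ^ l * ρ ^ l * (1 / 2) ^ n := by
          rw [mul_assoc E ((4 / η) ^ l), ← mul_pow]
          ring
      _ ≤ _ := by gcongr

lemma locG {Q g : ℂ → ℂ} {ζ : ℂ} {η ρ E : ℝ} {ν : ℕ} {c : Fin ν → ℂ}
    (hg : DifferentiableOn ℂ g (ball ζ η)) (h0 : 0 < η) (h1 : 4 * ρ ≤ η)
    (hQ : ∀ z ∈ ball ζ η, Q z = (∏ i, (z - c i)) * g z) (hc : ∀ i, ‖c i - ζ‖ ≤ ρ)
    (hE : ∀ w ∈ ball ζ η, ‖Q w‖ ≤ E) {z : ℂ} (hz : ‖z - ζ‖ ≤ η / 2) :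
    ‖g z‖ ≤ E * (4 / η) ^ ν := by
  have h2 : η / 2 ≠ 0 := by positivity
  refine Complex.norm_le_of_forall_mem_frontier_norm_le (U := ball ζ (η / 2)) isBounded_ball
    (DifferentiableOn.diffContOnCl (hg.mono ?_)) (fun w hw => ?_) ?_
  · rw [closure_ball _ h2]
    exact closedBall_subset_ball (by linarith)
  · rw [frontier_ball _ h2, mem_sphere_iff_norm] at hw
    have hw' : w ∈ ball ζ η := mem_ball_iff_norm.2 (by linarith)
    have a1 := hE w hw'
    rw [hQ w hw', norm_mul, norm_prod] at a1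
    have a2 : ∏ _i : Fin ν, η / 4 ≤ ∏ i, ‖w - c i‖ :=
      prod_le_prod (fun _ _ => by positivity) fun i _ => by
        linarith [norm_sub_le_norm_sub_add_norm_sub w (c i) ζ, hc i]
    rw [prod_const, card_univ, Fintype.card_fin] at a2
    rw [← inv_div η 4, inv_pow, ← div_eq_mul_inv, le_div_iff₀' (by positivity)]
    exact (mul_le_mul_of_nonneg_right a2 (norm_nonneg _)).trans a1
  · rw [closure_ball _ h2]
    exact mem_closedBall_iff_norm.2 hz

theorem sLoc : SLoc := by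
  intro ζ η T ρ ε ν h l N c Q g Φ x u A hT η0 η1 ηT ρ0 ρ1 hν hh hl hN hg hΦ hu hQ hc hb hu0 hε hx
    hd z hz
  have e8 : 8 * T ≤ exp T := by nlinarith [quadratic_le_exp_of_nonneg (x := T) (by linarith)]
  have pw : ∀ n : ℕ, (n : ℝ) ≤ T → exp T ^ n ≤ exp (T ^ 2) := fun n hn => by
    rw [← exp_nat_mul, exp_le_exp]
    nlinarith
  have fin : (exp (T ^ 2) ^ 3) ^ h * (exp (T ^ 2) ^ 9) ^ l ≤ exp (T ^ 5) := by
    rw [← exp_nat_mul, ← exp_nat_mul, ← exp_nat_mul, ← exp_nat_mul, ← exp_add, exp_le_exp]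
    have a1 : 0 ≤ T ^ 2 := by positivity
    have a2 : 256 ≤ T ^ 2 := by nlinarith
    have a3 : 0 ≤ T ^ 3 := by positivity
    push_cast
    nlinarith [mul_le_mul_of_nonneg_right hh a1, mul_le_mul_of_nonneg_right hl a1,
      mul_le_mul_of_nonneg_right a2 a3]
  have r3 : ρ * exp T ^ 3 ≤ 1 := by
    rw [← le_div_iff₀ (by positivity), ← exp_nat_mul, one_div, ← exp_neg]
    exact_mod_cast ρ1
  have u0 : 1 ≤ ‖u ζ‖ * exp T := by
    rwa [exp_neg, inv_le_iff_one_le_mul₀ (exp_pos T)] at hu0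
  have EF := pw 1 (by push_cast; linarith)
  rw [pow_one] at EF
  generalize exp (T ^ 2) = F at *
  generalize exp T = E at *
  have E1 : 128 ≤ E := by linarith
  have F1 : 128 ≤ F := by linarith
  have ηE : 8 ≤ E * η := by nlinarith
  have e4 : 4 / η ≤ E := by rw [div_le_iff₀ η0]; linarith
  have ρE : ρ * E ≤ 1 := by
    have : ρ * E * 1 ≤ ρ * E * E ^ 2 := by gcongr; nlinarith
    nlinarith
  have r4 : 4 * ρ ≤ η := by nlinarith
  have r1 : ρ ≤ 1 := by linarith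
  have pη : ∀ n : ℕ, (n : ℝ) ≤ T → (4 / η) ^ n ≤ F := fun n hn =>
    (pow_le_pow_left₀ (by positivity) e4 n).trans (pw n hn)
  have zb : z ∈ ball ζ η := mem_ball_iff_norm.2 (by linarith)
  have u1 : 1 ≤ ‖u z‖ * E ^ 2 := by
    have a1 := Complex.dist_le_div_mul_dist_of_mapsTo_ball hu (R₂ := 2 * E) (fun w hw => by
      rw [mem_closedBall_iff_norm]
      linarith [norm_sub_le (u w) (u ζ), (hb w hw).2.2.1, (hb ζ (mem_ball_self η0)).2.2.1]) zb
    rw [dist_eq_norm, dist_eq_norm] at a1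
    have a2 : 2 * E / η * ‖z - ζ‖ ≤ 2 * E * T * ρ := by
      gcongr
      rw [div_le_iff₀ η0]
      nlinarith
    have a3 : ‖u ζ‖ ≤ ‖u z‖ + 2 * E * T * ρ := by
      linarith [norm_sub_norm_le (u ζ) (u z), norm_sub_rev (u z) (u ζ)]
    have a4 : ‖u ζ‖ * E ^ 2 ≤ (‖u z‖ + 2 * E * T * ρ) * E ^ 2 := by gcongr
    have a5 : 1 * E ≤ ‖u ζ‖ * E * E := by gcongr
    have a6 : 2 * T * (ρ * E ^ 3) ≤ 2 * T * 1 := by gcongr
    nlinarith
  have uN : ∀ (a : ℝ) (k : ℕ), 0 ≤ a → 1 ≤ a * E ^ k → 1 ≤ a ^ N * F ^ k := fun a k a0 a1 => by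
    refine (one_le_pow₀ (n := N) a1).trans ?_
    rw [mul_pow, ← pow_mul, mul_comm k N, pow_mul]
    gcongr
    exact pw N hN
  have b1 : ‖Φ z‖ ≤ F ^ 3 * ρ ^ l := by
    refine (locTaylor hΦ ρ0 r4 η1 (fun w hw => (hb w hw).2.1) (K := F ^ 2) (l := l) ?_
      (fun j hj => ?_) hz).trans ?_
    · rw [pow_two]
      exact mul_le_mul EF (pη l hl) (by positivity) (by positivity)
    · have a1 := hd j hj
      rw [norm_mul, norm_pow] at a1
      have a2 := uN _ 1 (norm_nonneg (u ζ)) (by simpa using u0)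
      have a3 : ε ≤ ρ ^ l := hε.trans (pow_le_pow_of_le_one ρ0.le r1 (by omega))
      calc _ ≤ ‖u ζ‖ ^ N * F ^ 1 * ‖iteratedDeriv j Φ ζ‖ :=
            le_mul_of_one_le_left (norm_nonneg _) a2
        _ = F * (‖u ζ‖ ^ N * ‖iteratedDeriv j Φ ζ‖) := by ring
        _ ≤ F ^ 2 * ρ ^ l := by
            gcongr
            · nlinarith
            · exact a1.trans a3
    · calc _ = 2 * (F ^ 2 * ρ ^ l) := by ring
        _ ≤ F * (F ^ 2 * ρ ^ l) := by gcongr; linarith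
        _ = _ := by ring
  have dQ : DifferentiableOn ℂ Q (ball ζ η) :=
    (DifferentiableOn.mul (by fun_prop) hg).congr hQ
  have b2 : ∀ j < h, ‖iteratedDeriv j Q z‖ ≤ F ^ 4 * ρ ^ (ν - h) := by
    intro j hj
    have hj' : (j : ℝ) ≤ T := (Nat.cast_le.2 hj.le).trans hh
    have f1 : (j.factorial : ℝ) ≤ F := by
      refine le_trans ?_ (pw j hj')
      refine le_trans (show (j.factorial : ℝ) ≤ (j : ℝ) ^ j by exact_mod_cast j.factorial_le_pow)
        (pow_le_pow_left₀ (by positivity) ?_ j)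
      linarith
    rcases le_total h ν with hle | hle
    · refine (locCauchy dQ ρ0 (by linarith) (C := F ^ 3 * ρ ^ ν) (fun w hw => ?_) j).trans ?_
      · rw [hQ w (mem_ball_iff_norm.2 (by linarith)), norm_mul, norm_prod]
        have a1 := locG hg η0 r4 hQ hc (fun w hw => (hb w hw).1) (z := w) (by linarith)
        have a2 : ∏ i, ‖w - c i‖ ≤ ∏ _i : Fin ν, E * ρ :=
          prod_le_prod (fun _ _ => norm_nonneg _) fun i _ => by
            nlinarith [norm_sub_le_norm_sub_add_norm_sub w ζ (c i), hc i, norm_sub_rev ζ (c i)]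
        rw [prod_const, card_univ, Fintype.card_fin, mul_pow] at a2
        calc _ ≤ F * ρ ^ ν * (F * F) := by
              gcongr
              · exact a2.trans (mul_le_mul_of_nonneg_right (pw ν hν) (by positivity))
              · exact a1.trans (mul_le_mul EF (pη ν hν) (by positivity) (by positivity))
          _ = _ := by ring
      · rw [div_le_iff₀ (by positivity)]
        calc _ ≤ F * (F ^ 3 * ρ ^ (ν - h + j)) := by
              gcongr ?_ * (_ * ?_)
              exact pow_le_pow_of_le_one ρ0.le r1 (by omega)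
          _ = _ := by ring
    · refine (locCauchy dQ (s := η / 4) (by positivity) (by linarith) (C := E)
        (fun w hw => (hb w (mem_ball_iff_norm.2 (by linarith))).1) j).trans ?_
      rw [Nat.sub_eq_zero_of_le hle, div_eq_mul_inv, ← inv_pow, inv_div]
      calc _ ≤ F * F * F * 1 := by
            rw [mul_one]
            gcongr
            exact pη j hj'
        _ ≤ F * F * F * F := by gcongr; linarith
        _ = _ := by ring
  have b3 : ‖x z‖ ≤ F ^ 9 * ρ ^ (ν - h) := by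
    have a1 : ‖∑ j ∈ range h, A j z * iteratedDeriv j Q z‖ ≤ h * (F * (F ^ 4 * ρ ^ (ν - h))) := by
      refine (norm_sum_le _ _).trans ((sum_le_card_nsmul _ _ (F * (F ^ 4 * ρ ^ (ν - h)))
        fun j hj => ?_).trans_eq (by rw [card_range, nsmul_eq_mul]))
      rw [norm_mul]
      exact mul_le_mul (((hb z zb).2.2.2 j (mem_range.1 hj)).trans EF) (b2 j (mem_range.1 hj))
        (norm_nonneg _) (by positivity)
    have a2 : ε ≤ ρ ^ (ν - h) := hε.trans (pow_le_pow_of_le_one ρ0.le r1 (by omega))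
    have a3 := norm_sub_norm_le (x z * u z ^ N) (∑ j ∈ range h, A j z * iteratedDeriv j Q z)
    rw [norm_mul, norm_pow] at a3
    have a4 : (h : ℝ) * (F * (F ^ 4 * ρ ^ (ν - h))) ≤ F * (F * (F ^ 4 * ρ ^ (ν - h))) := by
      gcongr
      linarith
    have a5 : 1 * ρ ^ (ν - h) ≤ F ^ 6 * ρ ^ (ν - h) := by
      gcongr
      exact one_le_pow₀ (by linarith)
    have a6 : ‖x z‖ * ‖u z‖ ^ N ≤ 2 * (F ^ 6 * ρ ^ (ν - h)) := by linarith [hx z zb]
    calc _ ≤ ‖x z‖ * (‖u z‖ ^ N * F ^ 2) :=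
          le_mul_of_one_le_right (norm_nonneg _) (uN _ 2 (norm_nonneg _) u1)
      _ = ‖x z‖ * ‖u z‖ ^ N * F ^ 2 := by ring
      _ ≤ F * (F ^ 6 * ρ ^ (ν - h)) * F ^ 2 := mul_le_mul_of_nonneg_right
          (a6.trans (mul_le_mul_of_nonneg_right (by linarith) (by positivity))) (by positivity)
      _ = _ := by ring
  rw [norm_mul, norm_pow, norm_pow]
  calc _ ≤ (F ^ 3 * ρ ^ l) ^ h * (F ^ 9 * ρ ^ (ν - h)) ^ l := by gcongr
    _ = (F ^ 3) ^ h * (F ^ 9) ^ l * ρ ^ (l * (h + (ν - h))) := by ring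
    _ ≤ _ := mul_le_mul fin (pow_le_pow_of_le_one ρ0.le r1 (Nat.mul_le_mul_left l (by omega)))
      (by positivity) (by positivity)

lemma locNZ {R ρ : ℝ} {N : ℕ} {b : Fin N → ℂ} {f g : ℂ → ℂ} (h0 : 0 < ρ) (h : ρ < R)
    (he : ∀ z, f z = (∏ j, (z - b j)) * g z) (hg : ∀ z, ‖z‖ ≤ ρ → g z ≠ 0) : NZ R f := by
  obtain ⟨z, h1, h2⟩ := (infinite_of_mem_nhds (0 : ℂ)
    (closedBall_mem_nhds 0 h0)).exists_notMem_finite (Set.finite_range b)
  refine ⟨z, closedBall_subset_ball h h1, ?_⟩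
  rw [he]
  exact mul_ne_zero (prod_ne_zero_iff.2 fun j _ e => h2 ⟨j, (sub_eq_zero.1 e).symm⟩)
    (hg z (mem_closedBall_zero_iff.1 h1))

theorem sLoc2 : SLoc2 := by
  intro R r η T ρ B N b f g ζ hr η0 hR hg he hb g0 T0 hT ha hζ ρ0 ρη B0 hB
  have hf : Hol R f := by
    rw [show f = fun z => (∏ j, (z - b j)) * g z from funext he]
    exact DifferentiableOn.mul (by fun_prop) hg
  have r0 : 0 < r + η := by linarith
  have hn := locNZ r0 hR he g0
  have hw : ‖ζ‖ < r + η := by linarith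
  have e1 := (pk_bounds hw (hf.int r0 hR) fun z hz =>
    log_le_of T0 (norm_nonneg _) (hT z hz.le)).2
  rw [pj hg he g0 le_rfl hR hw] at e1
  have e2 := av_mono hf hn one_pos (by linarith : 1 ≤ r + η) hR
  have e3 := av_le hf hn r0 hR fun z hz => hT z hz.le
  have e4 : (r + η + ‖ζ‖) / (r + η - ‖ζ‖) * (T - av f (r + η)) ≤ 2 * (r + η) / η * (2 * T) := by
    gcongr <;> linarith
  have e5 : ∑ j, log (hh (r + η) (b j) ζ) ≤ ∑ _j : Fin N, log (2 * (r + η)) := by
    refine sum_le_sum fun j _ => log_le_of (log_nonneg (by linarith))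
      ((norm_nonneg _).trans (le_hh _ hw)) ?_
    rw [exp_log (by linarith), hh, if_pos (hb j), norm_div, Complex.norm_real, Real.norm_eq_abs,
      abs_of_pos r0, div_le_iff₀ r0]
    refine (norm_sub_le _ _).trans ?_
    rw [norm_pow, norm_mul, Complex.norm_conj, Complex.norm_real, Real.norm_eq_abs, abs_of_pos r0]
    nlinarith [mul_le_mul (hb j) hw.le (norm_nonneg _) r0.le]
  have sh : ∀ k : ℂ → ℂ, Hol R k → Hol η fun z => k (z + ζ) := fun k hk =>
    hk.comp (by fun_prop) fun z hz => mem_ball_zero_iff.2 (by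
      linarith [norm_add_le z ζ, mem_ball_zero_iff.1 hz])
  have he' : ∀ z, f (z + ζ) = (∏ j, (z - (b j - ζ))) * g (z + ζ) := fun z => by
    rw [he]
    congr 2
    ext j
    ring
  have g1 : ∀ z : ℂ, ‖z‖ ≤ ρ → g (z + ζ) ≠ 0 := fun z hz => g0 _ (by linarith [norm_add_le z ζ])
  have e6 := av_eq (sh g hg) he' g1 ρ0 le_rfl ρη
  have e7 := av_le (sh f hf) (locNZ ρ0 ρη he' g1) ρ0 ρη (A := log B) fun z hz => by
    rw [exp_log B0]
    exact hB _ (by simpa using hz)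
  rw [sum_congr rfl fun j _ => log_div (by positivity) (by positivity), sum_sub_distrib]
  rw [zero_add] at e6
  have e8 : 2 * (r + η) / η * (2 * T) = 4 * (r + η) / η * T := by ring
  unfold av at *
  linarith

end Pool.Agent.MP_c69980_ag.H43
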