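import Pool.Agent.MP_c69980_ag.H43.Spec6

/-!
Descent to a countable differential field and transfer to the complex numbers.
-/

set_option autoImplicit false

namespace Pool.Agent.MP_c69980_ag.H43

open MvPolynomial H60 Finset

/-- A countable set lies in a countable subfield that is stable under countably many
derivations. -/
lemma downField {Ω ι : Type} [Field Ω] [Countable ι] (δ : ι → Derivation ℤ Ω Ω) {s : Set Ω}
    (hs : s.Countable) : ∃ F : Subfield Ω, Countable F ∧ s ⊆ F ∧ ∀ i, ∀ x ∈ F, δ i x ∈ F := by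
  have := hs.to_subtype
  refine ⟨Subfield.closure (Set.range fun q : List ι × s => q.1.foldr (fun i z => δ i z) q.2),
    closure_countable (Set.countable_range _),
    fun x hx => Subfield.subset_closure ⟨([], ⟨x, hx⟩), rfl⟩, fun i x hx => ?_⟩
  induction hx using Subfield.closure_induction with
  | mem x hx =>
    obtain ⟨q, rfl⟩ := hx
    exact Subfield.subset_closure ⟨(i :: q.1, q.2), rfl⟩
  | one => rw [Derivation.map_one_eq_zero]; exact zero_mem _
  | add x y _ _ a b => rw [map_add]; exact add_mem a b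
  | neg x _ a => rw [map_neg]; exact neg_mem a
  | inv x hx a =>
    rw [Derivation.leibniz_inv, smul_eq_mul]
    exact mul_mem (neg_mem (pow_mem (inv_mem hx) 2)) a
  | mul x y hx hy a b =>
    rw [Derivation.leibniz, smul_eq_mul, smul_eq_mul]
    exact add_mem (mul_mem hx b) (mul_mem hy a)

theorem sDown (h1 : SEmb) (h2 : SExt) : SDown := by
  intro t a M w Θ k Ω _ _ ι κ _ _ δ y T hk hC hK hy hT
  obtain ⟨F, f1, f2, f3⟩ := downField δ (s := T ∪ (Set.range (fun c : k => algebraMap ℂ Ω c) ∪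
    Set.range fun q : κ × Fin M => y q.1 q.2))
    (hT.union ((Set.countable_range _).union (Set.countable_range _)))
  have mk : ∀ c : k, ((algebraMap ℂ Ω).comp k.subtype) c ∈ F := fun c =>
    f2 (Or.inr (Or.inl ⟨c, rfl⟩))
  have my : ∀ j c, y j c ∈ F := fun j c => f2 (Or.inr (Or.inr ⟨(j, c), rfl⟩))
  let _ : Algebra k F := (((algebraMap ℂ Ω).comp k.subtype).codRestrict F mk).toAlgebra
  obtain ⟨φ, hφ⟩ := h1.1 k hk F
    ((Cardinal.mk_le_aleph0_iff.2 f1).trans Cardinal.aleph0_le_continuum)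
  have hc : ∀ c (h : c ∈ k), φ ⟨algebraMap ℂ Ω c, mk ⟨c, h⟩⟩ = c := fun c h => φ.commutes ⟨c, h⟩
  have hD : ∀ i, ∃ D : Der, ∀ x : F, D (φ x) = φ ⟨δ i x, f3 i x x.2⟩ := fun i => by
    refine h2.1 F φ ((φ : F →+ ℂ).comp
      (AddMonoidHom.mk' (fun x : F => (⟨δ i x, f3 i x x.2⟩ : F)) fun x x' =>
        Subtype.ext (map_add (δ i) x.1 x'.1))) (fun x x' => ?_) fun x hx => ?_
    · change φ ⟨δ i (x * x' : F), _⟩ = φ x * φ ⟨δ i x', _⟩ + φ x' * φ ⟨δ i x, _⟩
      rw [← map_mul, ← map_mul, ← map_add]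
      exact congrArg φ (Subtype.ext ((δ i).leibniz x.1 x'.1))
    · rw [(map_eq_zero φ).1 hx, map_zero]
  choose D hD using hD
  have hp : ∀ j, ∃ (p : Pt t a) (l : ℂ), (fun c => φ ⟨y j c, my j c⟩) = l • Θ p := fun j => by
    refine hC _ (fun o => ?_) fun P d a1 a2 a3 => ?_
    · obtain ⟨b, b1, b2⟩ := (hy j).blk o
      exact ⟨b, b1, (map_ne_zero φ).2 fun e => b2 (congrArg Subtype.val e)⟩
    · have e := (hy j).eqs P d a1 a3
      obtain ⟨P', rfl⟩ := cf_iff.1 a2
      have e' : aeval (fun c => (⟨y j c, my j c⟩ : F)) P' = 0 := by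
        apply F.subtype.injective
        rw [map_zero, ← e, aeval_def, aeval_def, eval₂_map, eval₂_comp_left]
        rfl
      rw [eval_map_sub, ← comp_aeval_apply, e', map_zero]
  choose p l hp using hp
  refine ⟨F, φ, D, p, f1, fun x hx => f2 (Or.inl hx), fun c h => ⟨_, hc c h⟩, fun i c h => ?_,
    fun i x => ⟨_, hD i x⟩, fun j c b => ⟨div_mem (my j c) (my j b), ?_⟩⟩
  · rw [← hc c h, hD, ← map_zero φ]
    exact congrArg φ (Subtype.ext (hK i c h))
  · have e : ∀ c, φ ⟨y j c, my j c⟩ = l j * Θ (p j) c := congrFun (hp j)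
    have hl : l j ≠ 0 := by
      obtain ⟨b, -, b2⟩ := (hy j).blk none
      intro h0
      have := e b
      rw [h0, zero_mul, map_eq_zero] at this
      exact b2 (congrArg Subtype.val this)
    rw [← mul_div_mul_left _ _ hl, ← e, ← e, ← map_div₀]
    rfl

end Pool.Agent.MP_c69980_ag.H43
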