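import Pool.Agent.MP_c69980_ag.H43.Spec8

/-!
Noether normalisation inside a finitely generated field.
-/

set_option autoImplicit false

namespace Pool.Agent.MP_c69980_ag.H43

open MvPolynomial H60 Finset

lemma noeInt {F A A' σ : Type} [Field F] [CommRing A] [CommRing A'] [Algebra F A] [Algebra F A']
    (g : MvPolynomial σ F →ₐ[F] A) (hg : g.IsIntegral) (f : A →ₐ[F] A') (u : A) :
    IsIntegral (Algebra.adjoin F (Set.range fun i => f (g (X i)))) (f u) := by
  obtain ⟨p, h1, h2⟩ := hg u
  have hm : ∀ q, (f.comp g) q ∈ Algebra.adjoin F (Set.range fun i => f (g (X i))) := fun q => by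
    rw [Algebra.adjoin_range_eq_range_aeval]
    exact ⟨q, by rw [aeval_unique (f.comp g)]; rfl⟩
  refine ⟨p.map ((f.comp g).codRestrict _ hm).toRingHom, h1.map _, ?_⟩
  rw [Polynomial.eval₂_map]
  have := Polynomial.hom_eval₂ p g.toRingHom f.toRingHom u
  rw [h2, map_zero] at this
  exact this.symm

theorem sNoe (h : SNoe0) : SNoe := by
  intro F K _ _ _ _ ι _ x r hx ⟨T, hT⟩ hr
  have : Algebra.FiniteType F (Algebra.adjoin F (Set.range x)) :=
    .adjoin_of_finite (Set.finite_range x)
  obtain ⟨s, g, g1, g2⟩ := exists_integral_inj_algHom_of_fg F (Algebra.adjoin F (Set.range x))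
  have ind : AlgebraicIndependent F fun i => g (X i) := by
    rw [aeval_unique g] at g1
    exact g1
  have := IntermediateField.isAlgebraic_adjoin_iff_top.1 hx
  have tb := (isTranscendenceBasis_iff_algebraicIndependent_isAlgebraic.2
    ⟨ind, ⟨fun u => (noeInt g g2 (AlgHom.id F _) u).isAlgebraic⟩⟩).algebraMap_comp (A := K)
  have hs := tb.cardinalMk_eq_trdeg
  rw [hr, Cardinal.mk_fin, Nat.cast_inj] at hs
  subst hs
  refine ⟨algebraMap (Algebra.adjoin F (Set.range x)) K ∘ fun i => g (X i), fun i => (g (X i)).2,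
    fun i => noeInt g g2 (Subalgebra.val _) ⟨x i, Algebra.subset_adjoin ⟨i, rfl⟩⟩,
    h F K r _ tb.1 ?_⟩
  have := tb.isAlgebraic_field
  have := IntermediateField.fg_top_iff.1
    ⟨T, IntermediateField.adjoin_eq_top_of_adjoin_eq_top F (E := IntermediateField.adjoin F
      (Set.range (algebraMap (Algebra.adjoin F (Set.range x)) K ∘ fun i => g (X i)))) hT⟩
  exact Algebra.finite_of_essFiniteType_of_isAlgebraic

end Pool.Agent.MP_c69980_ag.H43
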